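import Pool.Agent.Work.MP_8f87b2_h17.Nat8

/-!
# Existence of the B-phase

`z` has the unique smallest part `c = C + 1`; the next part is `b = c + (Y + 1)`.
`eb` : the cycle of `z` contains `R_p [b]`, with the marker `[c]` at the gap `p` of the word `rho`,
for all `p` in one class modulo `gcd (b - c, n)`, `n` the ring of the word `W` of the other solitons.
-/

set_option autoImplicit false

namespace Pool.OddHC

namespace EB

open Finset BinaryTree Multiset Pool.OddHop

variable {i j k : ℕ}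

/-- the marker at the gap `p` -/
def mk (C : ℕ) (r : BinaryTree Unit) (p : ℕ) : BinaryTree Unit :=
  iy (C + 1) r (List.replicate p 0 ++ 1 :: List.replicate (2 * r.numNodes - p) 0)

/-- one bead in the last gap is the last prime -/
theorem iy_last (v : X i) (b : ZMod (2 * i + 1) → ℕ) (Y : ℕ) :
    iy (Y + 1) v.1 (lf (fun x => b x + if x = -1 then 1 else 0)) =
      app (iy (Y + 1) v.1 (lf b)) (pc (Y + 1)) := by
  induction Y with
  | zero => exact ins_back v b
  | succ Y ih =>
    change inf (iy (Y + 1) v.1 _) = app (inf (iy (Y + 1) v.1 (lf b))) (pc (Y + 1 + 1))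
    rw [ih, inf_app, inf_pc (by omega)]

/-- one bead before the last prime -/
theorem iy_pc (C Y p : ℕ) (r : BinaryTree Unit) (hp : p ≤ 2 * r.numNodes) :
    iy (C + 1) (app r (pc (Y + 1)))
      (List.replicate p 0 ++ 1 :: List.replicate (2 * (r.numNodes + (Y + 1)) - p) 0) =
      app (mk C r p) (pc (Y + 1 + (C + 1))) := by
  induction C with
  | zero =>
    have h1 : (List.replicate p 0 ++ 1 :: List.replicate (2 * (r.numNodes + (Y + 1)) - p) 0 : List ℕ) =
        (List.replicate p 0 ++ 1 :: List.replicate (2 * r.numNodes - p) 0) ++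
          List.replicate (2 * (Y + 1)) 0 := by
      rw [List.append_assoc, List.cons_append, List.replicate_append_replicate]
      congr 3
      omega
    change ins (app r (pc (Y + 1))) _ = app (ins r _) (pc (Y + 1 + 1))
    rw [h1, ins_app _ _ _ _ (by
      rw [List.length_append, List.length_cons, List.length_replicate, List.length_replicate]
      omega)]
    have h2 : (0 :: List.replicate (2 * (Y + 1)) 0 : List ℕ) =
        List.replicate (2 * (pc (Y + 1)).numNodes + 1) 0 := by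
      rw [pc_num]
      rfl
    rw [h2]
    change app _ (inf (pc (Y + 1))) = _
    rw [inf_pc (by omega)]
  | succ C ih =>
    change inf (iy (C + 1) (app r (pc (Y + 1))) _) = app (inf (mk C r p)) _
    rw [ih, inf_app, inf_pc (by omega)]
    rfl

/-- the word with the soliton `C + 1` and its ring -/
theorem iy_ex : ∀ (C : ℕ) {k : ℕ} (z : X k), (∀ x ∈ cont z.1, C + 1 ≤ x) →
    ∃ (j : ℕ) (W : X j) (f : ZMod (2 * j + 1) → ℕ), z.1 = iy (C + 1) W.1 (lf f) := by
  intro C
  induction C with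
  | zero =>
    intro k z _
    obtain ⟨j, u, e, he, hw, _, _⟩ := red_ex z
    obtain ⟨f, rfl⟩ := exists_lf he
    exact ⟨j, u, f, hw⟩
  | succ C ih =>
    intro k z hz
    obtain ⟨j, u, e, he, hw, _, _⟩ := red_ex z
    have h0 : (cont z.1).count 1 = 0 := by
      rw [Multiset.count_eq_zero]
      intro h
      have := hz 1 h
      omega
    have h1 : e.sum = 0 := by
      rw [← count_one_ins u.1 e (by rw [X_num]; exact he), ← hw]
      exact h0
    have h2 : e = List.replicate (2 * u.1.numNodes + 1) 0 := by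
      rw [List.eq_replicate_iff]
      refine ⟨by rw [he, X_num], fun x hx => ?_⟩
      have := List.single_le_sum (fun y _ => Nat.zero_le y) x hx
      omega
    have h3 : z.1 = inf u.1 := by
      rw [hw, h2]
      rfl
    obtain ⟨m, W, f, h4⟩ := ih u (by
      intro x hx
      have := hz (x + 1) (by rw [h3, cont_inf]; exact Multiset.mem_map_of_mem _ hx)
      omega)
    exact ⟨m, W, f, by rw [h3, h4]; rfl⟩

theorem dl_of_sum {n : ℕ} (f : ZMod (2 * n + 1) → ℕ) (h : ∑ x, f x = 1) : ∃ x0, f = dl n x0 := by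
  obtain ⟨x0, _, h1⟩ : ∃ x ∈ (Finset.univ : Finset (ZMod (2 * n + 1))), f x ≠ 0 := by
    by_contra hn
    push_neg at hn
    rw [Finset.sum_eq_zero hn] at h
    omega
  refine ⟨x0, ?_⟩
  have h2 : ∀ x, x ≠ x0 → f x = 0 := by
    intro x hx
    have h3 : f x0 + f x ≤ ∑ y, f y := by
      rw [← Finset.sum_pair (Ne.symm hx)]
      exact Finset.sum_le_sum_of_subset (Finset.subset_univ _)
    omega
  have h3 : f x0 = 1 := by
    rw [← h]
    symm
    exact Finset.sum_eq_single x0 (fun x _ hx => h2 x hx) (fun hx => absurd (Finset.mem_univ _) hx)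
  funext x
  unfold dl
  split
  · next hx => rw [hx, h3]
  · next hx => exact h2 x hx

/-- the natural classes modulo the gcd -/
theorem res_mod {Y j : ℕ} (q l p : ℕ) (h : p + q ≡ l [MOD Nat.gcd (Y + 1) (2 * j + 1)]) :
    ∃ zz : ZMod (2 * j + 1), ((l : ℕ) : ZMod (2 * j + 1)) - (p : ZMod (2 * j + 1)) =
      (q : ZMod (2 * j + 1)) + ((Y + 1 : ℕ) : ZMod (2 * j + 1)) * zz := by
  obtain ⟨s, hs⟩ := (Nat.modEq_iff_dvd.1 h)
  have hg := Nat.gcd_eq_gcd_ab (Y + 1) (2 * j + 1)
  have h1 : ((l : ℤ) - ((p + q : ℕ) : ℤ)) =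
      (((Y + 1 : ℕ) : ℤ) * Nat.gcdA (Y + 1) (2 * j + 1) +
        ((2 * j + 1 : ℕ) : ℤ) * Nat.gcdB (Y + 1) (2 * j + 1)) * s := by
    rw [hs, hg]
  have h2 := congrArg (fun x : ℤ => (x : ZMod (2 * j + 1))) h1
  have h0 : ((2 * j + 1 : ℕ) : ZMod (2 * j + 1)) = 0 := ZMod.natCast_self _
  refine ⟨((Nat.gcdA (Y + 1) (2 * j + 1) * s : ℤ) : ZMod (2 * j + 1)), ?_⟩
  push_cast at h0 h2 ⊢
  linear_combination h2 + ((Nat.gcdB (Y + 1) (2 * j + 1) : ℤ) : ZMod (2 * j + 1)) *
    (s : ZMod (2 * j + 1)) * h0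

/-- **the B-phases of one word** -/
theorem eb_word (z : X k) (W : X j) (u : X i) (C Y : ℕ) (l0 : ZMod (2 * j + 1))
    (b : ZMod (2 * i + 1) → ℕ) (x0 : ZMod (2 * i + 1)) (hj : 1 ≤ j)
    (hz : z.1 = iy (C + 1) W.1 (lf (dl j l0))) (hW : W.1 = iy (Y + 1) u.1 (lf b)) (hx : 1 ≤ b x0)
    (p : ℕ) (hp : p + 2 * (Y + 1) ≤ 2 * j)
    (hr : p + (x0 + 1).val ≡ l0.val [MOD Nat.gcd (Y + 1) (2 * j + 1)]) :
    ∃ (w : X k) (W' : X j) (r : BinaryTree Unit), (TT : Equiv.Perm (X k)).SameCycle z w ∧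
      (TT : Equiv.Perm (X j)).SameCycle W W' ∧
      W'.1 = app r (pc (Y + 1)) ∧ w.1 = app (mk C r p) (pc (Y + 1 + (C + 1))) ∧
      w.1 = iy (C + 1) W'.1 (lf (dl j (p : ZMod (2 * j + 1)))) := by
  obtain ⟨zz, h1⟩ := res_mod (Y := Y) (j := j) (x0 + 1).val l0.val p hr
  rw [ZMod.natCast_zmod_val] at h1
  obtain ⟨t, h2, h3⟩ := natp hj u (lf b) (lf_length b) Y W hW (x0 + 1) zz
  have h4 := word_iy_lf W (dl j l0) t C z hz
  have h5 := word_iy_lf u b t Y W hW
  have e1 : (fun x => dl j l0 (x + sp W t)) = dl j (p : ZMod (2 * j + 1)) := by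
    funext x
    unfold dl
    have : (x + sp W t = l0) ↔ x = (p : ZMod (2 * j + 1)) := by
      rw [h3, ← h1]
      constructor
      · intro h; linear_combination h
      · rintro rfl; ring
    simp only [this]
  rw [e1] at h4
  obtain ⟨b', hb'⟩ : ∃ b' : ZMod (2 * i + 1) → ℕ,
      (fun x => b (x + sp u t)) = fun x => b' x + if x = -1 then 1 else 0 := by
    refine ⟨fun x => b (x + sp u t) - if x = -1 then 1 else 0, ?_⟩
    funext x
    beta_reduce
    by_cases hx1 : x = -1
    · subst hx1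
      have h6 : (-1 : ZMod (2 * i + 1)) + sp u t = x0 := by
        rw [h2]
        ring
      rw [if_pos rfl, h6]
      omega
    · rw [if_neg hx1, Nat.sub_zero]
      rfl
  rw [hb', iy_last] at h5
  set r := iy (Y + 1) ((TT ^ t) u).1 (lf b') with hr'
  have h7 : r.numNodes + (Y + 1) = j := by
    have := congrArg BinaryTree.numNodes h5
    rw [X_num, num_app, pc_num] at this
    omega
  have h8 : lf (dl j (p : ZMod (2 * j + 1))) =
      List.replicate p 0 ++ 1 :: List.replicate (2 * (r.numNodes + (Y + 1)) - p) 0 := by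
    rw [h7]
    exact lf_dl p (2 * j - p) (by omega)
  refine ⟨(TT ^ t) z, (TT ^ t) W, r, ⟨t, by simp⟩, ⟨t, by simp⟩, h5, ?_, h4⟩
  rw [h4, h5, h8]
  exact iy_pc C Y p r (by omega)

/-! ### The marker at the gap 1 -/

/-- the word `([c] s) B` -/
theorem mk_one : ∀ (C : ℕ) {r : BinaryTree Unit}, r ≠ .nil →
    ∃ A B, A ≠ .nil ∧ inf^[C + 1] r = A △ B ∧ mk C r 1 = (pc C △ A) △ B := by
  intro C
  induction C with
  | zero =>
    intro r hr
    cases r with
    | nil => exact absurd rfl hr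
    | node _ A B =>
      refine ⟨inf1 A, inf B, inf1_ne' A, inf_node A B, ?_⟩
      have h1 := ins_second A B
      have h2 : (List.replicate 1 0 ++ 1 :: List.replicate (2 * (A △ B).numNodes - 1) 0 : List ℕ) =
          0 :: 1 :: List.replicate (2 * (A △ B).numNodes - 1) 0 := rfl
      unfold mk
      rw [h2]
      exact h1
  | succ C ih =>
    intro r hr
    obtain ⟨A, B, h1, h2, h3⟩ := ih hr
    refine ⟨inf1 A, inf B, inf1_ne' A, ?_, ?_⟩
    · rw [Function.iterate_succ_apply', h2, inf_node]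
    · have h4 : mk (C + 1) r 1 = inf (mk C r 1) := rfl
      have h5 : inf1 (pc C △ A) = inf (pc C △ A) := inf1_eq (by simp)
      have h6 : inf1 A = inf A := inf1_eq h1
      rw [h4, h3, inf_node, h5, inf_node, inf1_pc, h6]

/-- one soliton is a nest -/
theorem eq_pc_of_cont' : ∀ {n : ℕ} {t : BinaryTree Unit}, cont t = {n} → t = pc n := by
  intro n t
  induction t generalizing n with
  | nil =>
    intro h
    rw [cont_nil] at h
    exact absurd h.symm (Multiset.singleton_ne_zero _)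
  | node _ A B ihA _ =>
    intro h
    have h1 : cont (A △ B) = {n} := h
    rw [cont_node] at h1
    have hc := congrArg Multiset.card h1
    rw [Multiset.card_add, Multiset.card_singleton] at hc
    have h2 : 1 ≤ Multiset.card (raise (cont A)) := by
      rw [Nat.one_le_iff_ne_zero, Ne, Multiset.card_eq_zero]
      exact raise_ne_zero _
    have hB : B = .nil := by
      rw [← cont_eq_zero, ← Multiset.card_eq_zero]
      omega
    subst hB
    rw [cont_nil, add_zero] at h1
    by_cases hA : A = .nil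
    · subst hA
      rw [cont_nil, raise_zero, Multiset.singleton_inj] at h1
      rw [← h1]
      rfl
    · have h3 : cont A ≠ 0 := cont_ne hA
      have h4 : Multiset.card (cont A) = 1 := by
        rw [← raise_card h3, h1, Multiset.card_singleton]
      obtain ⟨m, hm⟩ := Multiset.card_eq_one.1 h4
      rw [hm, raise_single, Multiset.singleton_inj] at h1
      rw [ihA hm, ← h1]
      rfl

/-! ### All words with a unique smallest part -/

theorem count_map (s : Multiset ℕ) (C : ℕ) (h : ∀ x ∈ s, 1 ≤ x) :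
    (s.map (· + (C + 1))).count (C + 1) = 0 := by
  rw [Multiset.count_eq_zero]
  intro h1
  obtain ⟨b, hb, hb1⟩ := Multiset.mem_map.1 h1
  have := h b hb
  omega

theorem cont_lf (t : X j) (f : ZMod (2 * j + 1) → ℕ) (Y : ℕ) :
    cont (iy (Y + 1) t.1 (lf f)) = (cont t.1).map (· + (Y + 1)) + replicate (∑ x, f x) (Y + 1) := by
  rw [HN.cont_iy t.1 (lf f) (by rw [lf_length, X_num]) Y, lf_sum]

theorem count_lf (t : X j) (f : ZMod (2 * j + 1) → ℕ) (Y : ℕ) :
    (cont (iy (Y + 1) t.1 (lf f))).count (Y + 1) = ∑ x, f x := by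
  rw [cont_lf, Multiset.count_add, count_map _ _ (cont_pos t.1), Multiset.count_replicate_self, zero_add]

/-- **THE B-PHASES** of `z`, `c = C + 1` the unique smallest part, `b = Y + 1 + c` the next one -/
theorem eb (z : X k) (C Y : ℕ) (hmin : ∀ x ∈ cont z.1, C + 1 ≤ x)
    (hc : (cont z.1).count (C + 1) = 1) (hb : Y + 1 + (C + 1) ∈ cont z.1)
    (hbm : ∀ x ∈ cont z.1, x ≠ C + 1 → Y + 1 + (C + 1) ≤ x) :
    ∃ j l : ℕ, k = j + (C + 1) * pkn z.1 ∧ Y + 1 ≤ j ∧ (3 ≤ pkn z.1 → Y + 2 ≤ j) ∧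
      ∀ p, p + 2 * (Y + 1) ≤ 2 * j → p ≡ l [MOD Nat.gcd (Y + 1) (2 * j + 1)] →
        ∃ (w : X k) (r : BinaryTree Unit), (TT : Equiv.Perm (X k)).SameCycle z w ∧
          w.1 = app (mk C r p) (pc (Y + 1 + (C + 1))) ∧ r.numNodes + (Y + 1) = j ∧
          pkn r + 2 = pkn z.1 ∧
          cont z.1 = (C + 1) ::ₘ (Y + 1 + (C + 1)) ::ₘ (cont r).map (· + (C + 1)) := by
  obtain ⟨j, W, f, hz⟩ := iy_ex C z hmin
  have hf : ∑ x, f x = 1 := by rw [← count_lf W f C, ← hz, hc]
  obtain ⟨l0, rfl⟩ := dl_of_sum f hf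
  have hcz : cont z.1 = (cont W.1).map (· + (C + 1)) + {C + 1} := by
    rw [hz, cont_lf, dl_sum]
    rfl
  have hn := iy_num W.1 (lf (dl j l0)) (by rw [lf_length, X_num]) C
  rw [← hz, X_num, X_num, lf_sum, dl_sum] at hn
  have hW1 : ∀ x ∈ cont W.1, Y + 1 ≤ x := by
    intro x hx
    have h1 : x + (C + 1) ∈ cont z.1 := by
      rw [hcz]
      exact Multiset.mem_add.2 (Or.inl (Multiset.mem_map_of_mem _ hx))
    have h2 := cont_pos W.1 x hx
    have h3 := hbm _ h1 (by omega)
    omega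
  have hWb : Y + 1 ∈ cont W.1 := by
    rw [hcz] at hb
    rcases Multiset.mem_add.1 hb with h1 | h1
    · obtain ⟨x, hx, hx1⟩ := Multiset.mem_map.1 h1
      have : x = Y + 1 := by omega
      rwa [this] at hx
    · rw [Multiset.mem_singleton] at h1
      omega
  have hj1 : Y + 1 ≤ j := by
    have h1 := Multiset.le_sum_of_mem hWb
    rw [cont_sum, X_num] at h1
    exact h1
  obtain ⟨i, u, b, hW⟩ := iy_ex Y W hW1
  obtain ⟨x0, hx0⟩ : ∃ x0, 1 ≤ b x0 := by
    by_contra hn0
    push_neg at hn0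
    have h1 : ∑ x, b x = 0 := Finset.sum_eq_zero (fun x _ => by have := hn0 x; omega)
    have h2 := count_lf u b Y
    rw [← hW, h1] at h2
    have := Multiset.count_pos.2 hWb
    omega
  refine ⟨j, l0.val + 2 * j * (x0 + 1).val, ?_, hj1, ?_, ?_⟩
  · rw [hn.2]
    exact hn.1
  · intro h3
    obtain ⟨s, hs⟩ := Multiset.exists_cons_of_mem hWb
    have h4 := cont_sum W.1
    have h5 := cont_card W.1
    rw [hs, Multiset.sum_cons, X_num] at h4
    rw [hs, Multiset.card_cons] at h5
    obtain ⟨x, hx⟩ : ∃ x, x ∈ s := by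
      rw [← Multiset.card_pos_iff_exists_mem]
      omega
    have h6 := Multiset.le_sum_of_mem hx
    have h7 := hW1 x (by rw [hs]; exact Multiset.mem_cons_of_mem hx)
    omega
  · intro p hp hl
    have hr : p + (x0 + 1).val ≡ l0.val [MOD Nat.gcd (Y + 1) (2 * j + 1)] := by
      have h1 := hl.add_right (x0 + 1).val
      have h2 : l0.val + 2 * j * (x0 + 1).val + (x0 + 1).val = l0.val + (2 * j + 1) * (x0 + 1).val := by
        ring
      rw [h2] at h1
      refine h1.trans ?_
      have h3 : (2 * j + 1) * (x0 + 1).val ≡ 0 [MOD Nat.gcd (Y + 1) (2 * j + 1)] :=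
        (Nat.modEq_zero_iff_dvd).2 ((Nat.gcd_dvd_right _ _).mul_right _)
      simpa using h3.add_left l0.val
    obtain ⟨w, W', r, h1, h2, h3, h4, _⟩ := eb_word z W u C Y l0 b x0 (by omega) hz hW hx0 p hp hr
    have h5 : cont W.1 = cont r + {Y + 1} := by
      rw [cont_same h2, h3, cont_app, cont_pc]
    refine ⟨w, r, h1, h4, ?_, ?_, ?_⟩
    · have := congrArg BinaryTree.numNodes h3
      rw [X_num, num_app, pc_num] at this
      omega
    · have h6 := congrArg Multiset.card h5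
      rw [Multiset.card_add, cont_card, cont_card, Multiset.card_singleton] at h6
      omega
    · rw [hcz, h5, Multiset.map_add, Multiset.map_singleton, add_comm, Multiset.singleton_add,
        add_comm ((cont r).map _), Multiset.singleton_add]

/-- **EB1**: the shape `([c] s) B [b]` -/
theorem eb1 (z : X k) (C Y : ℕ) (hmin : ∀ x ∈ cont z.1, C + 1 ≤ x)
    (hc : (cont z.1).count (C + 1) = 1) (hb : Y + 1 + (C + 1) ∈ cont z.1)
    (hbm : ∀ x ∈ cont z.1, x ≠ C + 1 → Y + 1 + (C + 1) ≤ x) (h3 : 3 ≤ pkn z.1)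
    (hg : Nat.Coprime (Y + 1) (2 * (k - (C + 1) * pkn z.1) + 1)) :
    ∃ (w : X k) (A B : BinaryTree Unit), (TT : Equiv.Perm (X k)).SameCycle z w ∧ A ≠ .nil ∧
      w.1 = app ((pc C △ A) △ B) (pc (Y + 1 + (C + 1))) ∧
      cont z.1 = (C + 1) ::ₘ (Y + 1 + (C + 1)) ::ₘ cont (A △ B) := by
  obtain ⟨j, l, h1, _, h4, h5⟩ := eb z C Y hmin hc hb hbm
  have h6 := h4 h3
  have h7 : k - (C + 1) * pkn z.1 = j := by omega
  rw [h7] at hg
  obtain ⟨w, r, h8, h9, h10, _, h11⟩ := h5 1 (by omega) (by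
    rw [Nat.Coprime.gcd_eq_one hg]
    exact Nat.modEq_one)
  have hr : r ≠ .nil := by
    intro h
    rw [h] at h10
    change 0 + (Y + 1) = j at h10
    omega
  obtain ⟨A, B, h12, h13, h14⟩ := mk_one C hr
  refine ⟨w, A, B, h8, h12, by rw [h9, h14], ?_⟩
  rw [h11, ← h13]
  congr 2
  have h15 := HN.cont_iy r (List.replicate (2 * r.numNodes + 1) 0) List.length_replicate C
  rw [iy_zero, List.sum_replicate] at h15
  rw [h15]
  simp

/-- **EB3**: three solitons `(a, b, c)` -/
theorem eb3 (z : X k) (C Y m : ℕ)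
    (hz : cont z.1 = {m + (C + 1), Y + 1 + (C + 1), C + 1}) (hm : Y + 1 ≤ m) :
    ∃ l : ℕ, ∀ p, p ≤ 2 * m → p ≡ l [MOD Nat.gcd (Y + 1) (2 * (m + (Y + 1)) + 1)] →
      ∃ w : X k, (TT : Equiv.Perm (X k)).SameCycle z w ∧
        w.1 = app (mk C (pc m) p) (pc (Y + 1 + (C + 1))) := by
  have hmem : ∀ x ∈ cont z.1, x = m + (C + 1) ∨ x = Y + 1 + (C + 1) ∨ x = C + 1 := by
    intro x hx
    rw [hz] at hx
    simpa using hx
  have hc : (cont z.1).count (C + 1) = 1 := by
    rw [hz]
    change ((m + (C + 1)) ::ₘ (Y + 1 + (C + 1)) ::ₘ ({C + 1} : Multiset ℕ)).count (C + 1) = 1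
    rw [Multiset.count_cons_of_ne (by omega), Multiset.count_cons_of_ne (by omega),
      Multiset.count_singleton_self]
  have h3 : pkn z.1 = 3 := by rw [← cont_card, hz]; rfl
  have hk : k = m + (C + 1) + (Y + 1 + (C + 1) + (C + 1)) := by
    rw [← X_num z, ← cont_sum, hz]
    simp
  obtain ⟨j, l, h1, _, _, h5⟩ := eb z C Y (by
      intro x hx
      rcases hmem x hx with h | h | h <;> omega) hc (by rw [hz]; simp) (by
      intro x hx hx1
      rcases hmem x hx with h | h | h <;> omega)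
  rw [h3] at h1
  have h6 : j = m + (Y + 1) := by omega
  subst h6
  refine ⟨l, fun p hp hl => ?_⟩
  obtain ⟨w, r, h8, h9, h10, h11, h12⟩ := h5 p (by omega) hl
  refine ⟨w, h8, ?_⟩
  have h13 : r = pc m := by
    have h14 : Multiset.card (cont r) = 1 := by rw [cont_card]; omega
    obtain ⟨x, hx⟩ := Multiset.card_eq_one.1 h14
    have h15 : r.numNodes = x := by rw [← cont_sum, hx, Multiset.sum_singleton]
    have h16 : x = m := by omega
    rw [h16] at hx
    exact eq_pc_of_cont' hx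
  rw [h9, h13]

end EB

end Pool.OddHC
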