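import Mathlib

/-!
# The selection theorem (top down merging of the windows)

`Z` windows, `c` the level (the end soliton), `w z i` the words (`i < 20`), `cy` the T-cycle of a word.
Law: a common word `w y i = w z j` of two windows, `c y < c z`, is of one of the four kinds `t = 0, 1, 2, 3`:
the T-cycle of `y` is that of the word `6, 16, 9, 19` of `z` and `j` is in `tj t`.
`sel`: every window is lone, or merged with one kid, such that the groups have no common word.
-/

set_option autoImplicit false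

namespace Pool.OddHC

namespace Sel

variable {Z W C : Type*}

/-- the indices of the parent in the four kinds -/
def tj : Fin 4 → List ℕ
  | 0 => [6, 8, 9, 12, 15, 17]
  | 1 => [16, 18, 19]
  | 2 => [9, 17]
  | 3 => [19]

/-- the index of the kid in the window of the parent -/
def top : Fin 4 → ℕ
  | 0 => 6
  | 1 => 16
  | 2 => 9
  | 3 => 19

/-- the words of the group (as many as possible): lone, `A`, `B`, `C`, `E` -/
def ix : Option (Fin 4) → List ℕ
  | none => List.range 20
  | some 0 => [0, 1, 2, 3, 4, 5, 6, 7, 8, 10, 11, 12, 13, 14, 15]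
  | some 1 => [0, 1, 2, 3, 4, 5, 6, 7, 8, 10, 11, 12, 13, 14, 15, 16, 18]
  | some 2 => List.range 19
  | some 3 => List.range 20

theorem ix_lt {o : Option (Fin 4)} {i : ℕ} (h : i ∈ ix o) : i < 20 := by
  rcases o with _ | t
  · simpa [ix] using h
  · fin_cases t <;> simp [ix] at h <;> omega

theorem top_lt (t : Fin 4) : top t < 20 := by
  fin_cases t <;> decide

/-- **THE LAW** -/
structure Law (c : Z → ℕ) (w : Z → ℕ → W) (cy : W → C) : Prop where
  /-- different windows have different T-cycles -/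
  inj : ∀ y z, cy (w y 0) = cy (w z 0) → y = z
  same : ∀ y z i j, i < 20 → j < 20 → c y = c z → w y i = w z j → y = z
  low : ∀ y z i j, i < 20 → j < 20 → c y < c z → w y i = w z j →
    ∃ t, j ∈ tj t ∧ cy (w y 0) = cy (w z (top t))

/-- `y` is hit by `z` in the kind `t` -/
def Hit (c : Z → ℕ) (w : Z → ℕ → W) (cy : W → C) (t : Fin 4) (y z : Z) : Prop :=
  c y < c z ∧ cy (w y 0) = cy (w z (top t)) ∧ ∃ i j, i < 20 ∧ j < 20 ∧ w y i = w z j ∧ j ∈ tj t

variable {c : Z → ℕ} {w : Z → ℕ → W} {cy : W → C} {r : Z → ℕ} {H : Fin 4 → Z → Z → Prop}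

open Classical in
/-- one step of the recursion; `D` the decisions of the higher windows -/
noncomputable def step (H : Fin 4 → Z → Z → Prop) (r : Z → ℕ) (z : Z)
    (D : (z' : Z) → r z < r z' → Option (Option (Fin 4 × Z))) : Option (Option (Fin 4 × Z)) :=
  if ∃ z' h t, D z' h = some (some (t, z)) then none
  else if h0 : ∃ y, H 0 y z ∧ ¬ ∃ z' h t, D z' h = some (some (t, y)) then some (some (0, h0.choose))
  else if h1 : ∃ y, H 1 y z ∧ ¬ ∃ z' h t, D z' h = some (some (t, y)) then some (some (1, h1.choose))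
  else if h2 : ∃ y, H 2 y z ∧ ¬ ∃ z' h t, D z' h = some (some (t, y)) then some (some (2, h2.choose))
  else if h3 : ∃ y, H 3 y z ∧ ¬ ∃ z' h t, D z' h = some (some (t, y)) then some (some (3, h3.choose))
  else some none

/-- the decisions exist (the ranks are bounded) -/
theorem dec_ex (H : Fin 4 → Z → Z → Prop) (r : Z → ℕ) {N : ℕ} (hN : ∀ z, r z ≤ N) :
    ∃ D : Z → Option (Option (Fin 4 × Z)), ∀ z, D z = step H r z (fun z' _ => D z') := by
  have hwf : WellFounded (fun z' z : Z => r z < r z') :=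
    (measure (fun z : Z => N - r z)).wf.mono (fun z' z h => by
      change N - r z' < N - r z
      have := hN z
      have := hN z'
      omega)
  refine ⟨hwf.fix (fun z D => step H r z D), fun z => ?_⟩
  rw [hwf.fix_eq]

/-- **the greedy selection**, abstract: `H t y z` with `r y < r z` -/
theorem greedy (H : Fin 4 → Z → Z → Prop) (r : Z → ℕ) (hr : ∀ z z', r z = r z' → z = z')
    (hH : ∀ t y z, H t y z → r y < r z) {N : ℕ} (hN : ∀ z, r z ≤ N) :
    ∃ D : Z → Option (Option (Fin 4 × Z)),
      (∀ z t y, D z = some (some (t, y)) → H t y z ∧ D y = none) ∧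
      (∀ y, D y = none → ∃ z t, D z = some (some (t, y))) ∧
      (∀ z z' t t' y, D z = some (some (t, y)) → D z' = some (some (t', y)) → z = z') ∧
      (∀ z y t, D z ≠ none → D y ≠ none → H t y z → ∃ s y', D z = some (some (s, y')) ∧ s ≤ t) := by
  classical
  obtain ⟨D, hD⟩ := dec_ex H r hN
  have F0 : ∀ z, D z = none ↔ ∃ z' t, r z < r z' ∧ D z' = some (some (t, z)) := by
    intro z
    constructor
    · intro h1
      rw [hD z] at h1
      unfold step at h1
      split at h1
      · next h2 =>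
        obtain ⟨z', h3, t, h4⟩ := h2
        exact ⟨z', t, h3, h4⟩
      · exfalso
        split_ifs at h1
    · rintro ⟨z', t, h1, h2⟩
      rw [hD z]
      unfold step
      rw [if_pos ⟨z', h1, t, h2⟩]
  have F1 : ∀ z t y, D z = some (some (t, y)) → H t y z ∧
      ¬ ∃ z', ∃ (_ : r z < r z'), ∃ t, D z' = some (some (t, y)) := by
    intro z t y h1
    rw [hD z] at h1
    unfold step at h1
    split_ifs at h1 with h2 h3 h4 h5 h6
    · simp only [Option.some.injEq, Prod.mk.injEq] at h1
      obtain ⟨rfl, rfl⟩ := h1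
      exact h3.choose_spec
    · simp only [Option.some.injEq, Prod.mk.injEq] at h1
      obtain ⟨rfl, rfl⟩ := h1
      exact h4.choose_spec
    · simp only [Option.some.injEq, Prod.mk.injEq] at h1
      obtain ⟨rfl, rfl⟩ := h1
      exact h5.choose_spec
    · simp only [Option.some.injEq, Prod.mk.injEq] at h1
      obtain ⟨rfl, rfl⟩ := h1
      exact h6.choose_spec
    · simp at h1
  refine ⟨D, fun z t y h1 => ⟨(F1 z t y h1).1, (F0 y).2 ⟨z, t, hH _ _ _ (F1 z t y h1).1, h1⟩⟩, ?_, ?_, ?_⟩
  · intro y h1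
    obtain ⟨z, t, _, h2⟩ := (F0 y).1 h1
    exact ⟨z, t, h2⟩
  · intro z z' t t' y h1 h2
    rcases lt_trichotomy (r z) (r z') with h3 | h3 | h3
    · exact absurd ⟨z', h3, t', h2⟩ (F1 z t y h1).2
    · exact hr z z' h3
    · exact absurd ⟨z, h3, t, h1⟩ (F1 z' t' y h2).2
  · intro z y t h1 h2 h3
    have n1 : ¬ ∃ z', ∃ (_ : r z < r z'), ∃ t, D z' = some (some (t, z)) := by
      rintro ⟨z', h4, t, h5⟩
      exact h1 ((F0 z).2 ⟨z', t, h4, h5⟩)
    have n2 : ∃ y, H t y z ∧ ¬ ∃ z', ∃ (_ : r z < r z'), ∃ t, D z' = some (some (t, y)) := by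
      refine ⟨y, h3, ?_⟩
      rintro ⟨z', h4, t', h5⟩
      exact h2 ((F0 y).2 ⟨z', t', (hH _ _ _ h3).trans h4, h5⟩)
    rw [hD z]
    unfold step
    rw [if_neg n1]
    split_ifs with h4 h5 h6 h7
    · exact ⟨0, _, rfl, Fin.zero_le _⟩
    · refine ⟨1, _, rfl, ?_⟩
      fin_cases t
      · exact absurd n2 h4
      · decide
      · decide
      · decide
    · refine ⟨2, _, rfl, ?_⟩
      fin_cases t
      · exact absurd n2 h4
      · exact absurd n2 h5
      · decide
      · decide
    · refine ⟨3, _, rfl, ?_⟩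
      fin_cases t
      · exact absurd n2 h4
      · exact absurd n2 h5
      · exact absurd n2 h6
      · decide
    · exfalso
      fin_cases t
      · exact h4 n2
      · exact h5 n2
      · exact h6 n2
      · exact h7 n2

/-- **THE SELECTION**. `D z = none`: `z` is the kid of a merged group; `D z = some none`: `z` is lone;
`D z = some (some (t, y))`: `z` is merged with `y`, its kid of the kind `t`. -/
theorem sel [Finite Z] (h : Law c w cy) :
    ∃ D : Z → Option (Option (Fin 4 × Z)),
      (∀ z t y, D z = some (some (t, y)) → Hit c w cy t y z ∧ D y = none) ∧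
      (∀ y, D y = none → ∃ z t, D z = some (some (t, y))) ∧
      (∀ z z' t t' y, D z = some (some (t, y)) → D z' = some (some (t', y)) → z = z') ∧
      (∀ z z' o o', D z = some o → D z' = some o' → z ≠ z' →
        ∀ i ∈ ix (o.map Prod.fst), ∀ j ∈ ix (o'.map Prod.fst), w z i ≠ w z' j) := by
  classical
  -- an injective rank which respects the levels
  obtain ⟨n, ⟨e⟩⟩ : ∃ n, Nonempty (Z ≃ Fin n) := Finite.exists_equiv_fin Z |>.imp fun n h => h
  obtain ⟨r, hr⟩ : ∃ r : Z → ℕ, r = fun z => c z * (n + 1) + (e z).val := ⟨_, rfl⟩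
  have hrinj : ∀ z z', r z = r z' → z = z' := by
    intro z z' h1
    rw [hr] at h1
    change c z * (n + 1) + (e z).val = c z' * (n + 1) + (e z').val at h1
    have a1 := (e z).isLt
    have a2 := (e z').isLt
    have h2 : c z = c z' := by
      rcases lt_trichotomy (c z) (c z') with h3 | h3 | h3
      · have : (c z + 1) * (n + 1) ≤ c z' * (n + 1) := Nat.mul_le_mul_right _ h3
        rw [Nat.add_mul] at this
        omega
      · exact h3
      · have : (c z' + 1) * (n + 1) ≤ c z * (n + 1) := Nat.mul_le_mul_right _ h3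
        rw [Nat.add_mul] at this
        omega
    rw [h2] at h1
    exact e.injective (Fin.ext (by omega))
  have hrc : ∀ z z', c z < c z' → r z < r z' := by
    intro z z' h1
    rw [hr]
    change c z * (n + 1) + (e z).val < c z' * (n + 1) + (e z').val
    have a1 := (e z).isLt
    have : (c z + 1) * (n + 1) ≤ c z' * (n + 1) := Nat.mul_le_mul_right _ h1
    rw [Nat.add_mul] at this
    omega
  obtain ⟨N, hN⟩ : ∃ N, ∀ z, r z ≤ N := by
    obtain ⟨N, hN⟩ := (Set.finite_range r).bddAbove
    exact ⟨N, fun z => hN ⟨z, rfl⟩⟩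
  obtain ⟨D, h1, h2, h3, h4⟩ := greedy (Hit c w cy) r hrinj (fun t y z hh => hrc _ _ hh.1) hN
  have key : ∀ z z' o o', D z = some o → D z' = some o' → c z < c z' →
      ∀ i ∈ ix (o.map Prod.fst), ∀ j ∈ ix (o'.map Prod.fst), w z i ≠ w z' j := by
    intro z z' o o' a1 a2 a3 i hi j hj he
    obtain ⟨t, h5, h6⟩ := h.low z z' i j (ix_lt hi) (ix_lt hj) a3 he
    have hh : Hit c w cy t z z' := ⟨a3, h6, i, j, ix_lt hi, ix_lt hj, he, h5⟩
    obtain ⟨s, y', h7, h8⟩ := h4 z' z t (by rw [a2]; simp) (by rw [a1]; simp) hh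
    rw [a2] at h7
    obtain rfl := Option.some.inj h7
    rcases eq_or_ne s t with rfl | h9
    · obtain ⟨⟨_, h10, _⟩, h11⟩ := h1 z' s y' a2
      rw [← h6] at h10
      rw [h.inj _ _ h10, a1] at h11
      simp at h11
    · have h10 : s < t := lt_of_le_of_ne h8 h9
      change j ∈ ix (some s) at hj
      fin_cases s <;> fin_cases t <;> simp at h10 <;> simp [ix, tj] at hj h5 <;> omega
  refine ⟨D, h1, h2, h3, ?_⟩
  intro z z' o o' a1 a2 a3 i hi j hj he
  rcases lt_trichotomy (c z) (c z') with h5 | h5 | h5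
  · exact key z z' o o' a1 a2 h5 i hi j hj he
  · exact a3 (h.same z z' i j (ix_lt hi) (ix_lt hj) h5 he)
  · exact key z' z o' o a2 a1 h5 j hj i hi he.symm

end Sel

end Pool.OddHC
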