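import Pool.Agent.Work.MP_8f87b2_h48.Sel
import Pool.Agent.Work.MP_8f87b2_h69w.TyV

/-!
# The selection for windows

`Wn k`: a right window (`NodeV`). `selW`: every set of T-cycles with chosen windows is cut into groups (lone, or merged with
one kid) such that the groups have no common word.
-/

set_option autoImplicit false

namespace Pool.OddHC

open Finset Equiv BinaryTree Pool.Agent.Work.MP_8f87b2_co

variable {k : ℕ}

/-- a right window -/
structure Wn (k : ℕ) where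
  q : ℕ
  R : BinaryTree Unit
  B : BinaryTree Unit
  S : BinaryTree Unit
  w0 : X k
  node : NodeV k q R B S
  ne : H1.wX R B S q w0 0 ≠ H1.wX R B S q w0 10

namespace Wn

/-- the words -/
noncomputable def w (z : Wn k) (i : ℕ) : X k := H1.wX z.R z.B z.S z.q z.w0 i

/-- the T-cycle -/
noncomputable def z (v : Wn k) : Cyc k := cyc (v.w 0)

/-- the T-cycles of a group -/
def F (z : Wn k) : Option (Fin 4) → Set (Cyc k)
  | none => {cyc (z.w 0)}
  | some s => {cyc (z.w 0), cyc (z.w (Sel.top s))}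

/-- `y` is hit by `z` (kind `s`) -/
def Hit (s : Fin 4) (y z : Wn k) : Prop :=
  y.q < z.q ∧ cyc (y.w 0) = cyc (z.w (Sel.top s)) ∧ ∃ i j, i < 20 ∧ j < 20 ∧ y.w i = z.w j ∧ j ∈ Sel.tj s

end Wn

/-- a cut of `Zs` into groups of windows -/
structure Cut (Zs : Set (Cyc k)) (v : Cyc k → Wn k) (Gr : Set (Wn k × Option (Fin 4))) : Prop where
  /-- only chosen windows -/
  ch : ∀ p ∈ Gr, ∃ z ∈ Zs, p.1 = v z
  sub : ∀ p ∈ Gr, ∀ c ∈ p.1.F p.2, c ∈ Zs
  cov : ∀ c ∈ Zs, ∃ p ∈ Gr, c ∈ p.1.F p.2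
  one : ∀ p ∈ Gr, ∀ p' ∈ Gr, ∀ c, c ∈ p.1.F p.2 → c ∈ p'.1.F p'.2 → p = p'
  /-- a merged window hits the chosen window of its kid -/
  hit : ∀ p ∈ Gr, ∀ s, p.2 = some s → ∃ y ∈ Zs, Wn.Hit s (v y) p.1
  /-- no common words -/
  dis : ∀ p ∈ Gr, ∀ p' ∈ Gr, p ≠ p' → ∀ i ∈ Sel.ix p.2, ∀ j ∈ Sel.ix p'.2, p.1.w i ≠ p'.1.w j

instance finX : Finite (X k) := by
  classical
  exact Finite.of_fintype _

instance finCyc : Finite (Cyc k) := by
  unfold Cyc
  infer_instance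

/-- **THE SELECTION FOR WINDOWS** -/
theorem selW (Zs : Set (Cyc k)) (v : Cyc k → Wn k) (hv : ∀ z ∈ Zs, cyc ((v z).w 0) = z)
    (hs : ∀ y ∈ Zs, ∀ z ∈ Zs, y ≠ z → (v y).q = (v z).q → ∀ i < 20, ∀ j < 20, (v y).w i ≠ (v z).w j)
    (hl : ∀ y ∈ Zs, ∀ z ∈ Zs, (v y).q < (v z).q → ∀ i < 20, ∀ j < 20, (v y).w i = (v z).w j →
      ∃ s, j ∈ Sel.tj s ∧ cyc ((v y).w 0) = cyc ((v z).w (Sel.top s))) :
    ∃ Gr : Set (Wn k × Option (Fin 4)), Cut Zs v Gr := by
  classical
  have hlaw : Sel.Law (Z := Zs) (fun z => (v z.1).q) (fun z i => (v z.1).w i) cyc := by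
    refine ⟨?_, ?_, ?_⟩
    · intro y z h
      change cyc ((v y.1).w 0) = cyc ((v z.1).w 0) at h
      rw [hv _ y.2, hv _ z.2] at h
      exact Subtype.ext h
    · intro y z i j hi hj h1 h2
      by_contra hne
      exact hs _ y.2 _ z.2 (fun e => hne (Subtype.ext e)) h1 i hi j hj h2
    · intro y z i j hi hj h1 h2
      exact hl _ y.2 _ z.2 h1 i hi j hj h2
  obtain ⟨D, h1, h2, h3, h4⟩ := Sel.sel hlaw
  -- the mate
  have hm : ∀ (z : Zs) s y, D z = some (some (s, y)) → cyc ((v z.1).w (Sel.top s)) = y.1 := by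
    intro z s y h5
    obtain ⟨⟨_, h6, _⟩, _⟩ := h1 z s y h5
    change cyc ((v y.1).w 0) = _ at h6
    rw [← h6, hv _ y.2]
  have hF : ∀ (z : Zs) o, D z = some o → ∀ c, c ∈ (v z.1).F (o.map Prod.fst) ↔
      c = z.1 ∨ (∃ s y, o = some (s, y) ∧ c = y.1) := by
    intro z o h5 c
    rcases o with _ | ⟨s, y⟩
    · change c = cyc ((v z.1).w 0) ↔ _
      rw [hv _ z.2]
      constructor
      · exact fun h => Or.inl h
      · rintro (h | ⟨s, y, h, _⟩)
        · exact h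
        · simp at h
    · change (c = cyc ((v z.1).w 0) ∨ c = cyc ((v z.1).w (Sel.top s))) ↔ _
      rw [hv _ z.2, hm z s y h5]
      constructor
      · rintro (h | h)
        · exact Or.inl h
        · exact Or.inr ⟨s, y, rfl, h⟩
      · rintro (h | ⟨s', y', h0, h⟩)
        · exact Or.inl h
        · simp only [Option.some.injEq, Prod.mk.injEq] at h0
          obtain ⟨rfl, rfl⟩ := h0
          exact Or.inr h
  have hF1 : ∀ (z z' : Zs) o o', D z = some o → D z' = some o' → ∀ c, c ∈ (v z.1).F (o.map Prod.fst) →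
      c ∈ (v z'.1).F (o'.map Prod.fst) → z = z' := by
    intro z z' o o' h5 h5' c hc hc'
    rcases (hF z o h5 c).1 hc with h | ⟨s, y, ho, h⟩ <;>
      rcases (hF z' o' h5' c).1 hc' with h' | ⟨s', y', ho', h'⟩
    · exact Subtype.ext (h.symm.trans h')
    · exfalso
      subst ho'
      have e : z = y' := Subtype.ext (h.symm.trans h')
      have := (h1 z' s' y' h5').2
      rw [← e, h5] at this
      simp at this
    · exfalso
      subst ho
      have e : z' = y := Subtype.ext (h'.symm.trans h)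
      have := (h1 z s y h5).2
      rw [← e, h5'] at this
      simp at this
    · subst ho ho'
      have e : y = y' := Subtype.ext (h.symm.trans h')
      subst e
      exact h3 z z' s s' y h5 h5'
  refine ⟨{p | ∃ z o, D z = some o ∧ p = (v z.1, o.map Prod.fst)}, ?_, ?_, ?_, ?_, ?_, ?_⟩
  · rintro p ⟨z, o, h5, rfl⟩
    exact ⟨z.1, z.2, rfl⟩
  · rintro p ⟨z, o, h5, rfl⟩ c hc
    rcases (hF z o h5 c).1 hc with h | ⟨s, y, _, h⟩
    · rw [h]; exact z.2
    · rw [h]; exact y.2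
  · intro c hc
    by_cases h5 : D ⟨c, hc⟩ = none
    · obtain ⟨z, s, h6⟩ := h2 _ h5
      exact ⟨(v z.1, some s), ⟨z, some (s, ⟨c, hc⟩), h6, rfl⟩,
        (hF z (some (s, ⟨c, hc⟩)) h6 c).2 (Or.inr ⟨s, ⟨c, hc⟩, rfl, rfl⟩)⟩
    · obtain ⟨o, h6⟩ := Option.ne_none_iff_exists'.1 h5
      exact ⟨(v c, o.map Prod.fst), ⟨⟨c, hc⟩, o, h6, rfl⟩, (hF _ o h6 c).2 (Or.inl rfl)⟩
  · rintro p ⟨z, o, h5, rfl⟩ p' ⟨z', o', h5', rfl⟩ c hc hc'
    obtain rfl := hF1 z z' o o' h5 h5' c hc hc'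
    rw [h5] at h5'
    rw [Option.some.inj h5']
  · rintro p ⟨z, o, h5, rfl⟩ s ho
    change o.map Prod.fst = some s at ho
    rcases o with _ | ⟨s', y⟩
    · simp at ho
    · simp only [Option.map_some, Option.some.injEq] at ho
      subst ho
      exact ⟨y.1, y.2, (h1 z s' y h5).1⟩
  · rintro p ⟨z, o, h5, rfl⟩ p' ⟨z', o', h5', rfl⟩ hne i hi j hj e
    have hzz : z ≠ z' := by
      rintro rfl
      rw [h5] at h5'
      exact hne (by rw [Option.some.inj h5'])
    exact h4 z z' o o' h5 h5' hzz i hi j hj e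

end Pool.OddHC
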